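import Mathlib

set_option autoImplicit false

/-!
# The edge-distinguishing game on triangular ladders

Player 1 has a winning strategy in the edge-distinguishing game on the triangular ladders `T_8`
and `T_10`, played with `λ(T_8) = λ(T_10) = 7` colours. The strategies are given by the tables
`table8` and `table10` of positions in which the player to move loses.
-/

namespace Pool.Agent.Results.MP_08a4a0_co.PlayerOneWins

open Finset

/-! ### The game -/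

/-- The triangular ladder `T_n`: `i` and `j` are adjacent if and only if `|i - j|` is `1` or `2`. -/
def triangularLadder (n : ℕ) : SimpleGraph (Fin n) where
  Adj i j := (j : ℕ) = i + 1 ∨ (j : ℕ) = i + 2 ∨ (i : ℕ) = j + 1 ∨ (i : ℕ) = j + 2
  symm := ⟨by intro i j h; omega⟩
  loopless := ⟨by intro i h; omega⟩

/-- The colouring `c` is edge-distinguishing: distinct edges have distinct multisets of colours. -/
def EdgeDistinguishing {V : Type} (G : SimpleGraph V) {k : ℕ} (c : V → Fin k) : Prop :=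
  ∀ u v x y, G.Adj u v → G.Adj x y → s(c u, c v) = s(c x, c y) → s(u, v) = s(x, y)

/-- The edge-distinguishing chromatic number `λ(G)`. -/
noncomputable def edgeDistinguishingNumber {V : Type} (G : SimpleGraph V) : ℕ :=
  sInf {k | ∃ c : V → Fin k, EdgeDistinguishing G c}

/-- A position of the game is a partial colouring `c` (`none` means uncoloured). It is legal if
distinct edges of `G` between coloured vertices have distinct multisets of colours. -/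
def Legal {V : Type} (G : SimpleGraph V) {k : ℕ} (c : V → Option (Fin k)) : Prop :=
  ∀ u v x y, G.Adj u v → G.Adj x y → c u ≠ none → c v ≠ none → c x ≠ none → c y ≠ none →
    s(c u, c v) = s(c x, c y) → s(u, v) = s(x, y)

/-- A legal move leads from `c` to `c'`: one uncoloured vertex gets a colour, all other vertices
stay as they are, and the new position is legal. -/
def Move {V : Type} (G : SimpleGraph V) {k : ℕ} (c c' : V → Option (Fin k)) : Prop :=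
  (∃ v, c v = none ∧ c' v ≠ none ∧ ∀ w, w ≠ v → c' w = c w) ∧ Legal G c'

/-- The player to move at the position `c` has a winning strategy, where the player who makes the
last legal move wins: there is a legal move after which the opponent cannot move or after each
legal answer of the opponent the player has a winning strategy. -/
inductive MoverWins {V : Type} (G : SimpleGraph V) {k : ℕ} : (V → Option (Fin k)) → Prop
  | intro (c c' : V → Option (Fin k)) (h : Move G c c')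
      (h' : ∀ c'', Move G c' c'' → MoverWins G c'') : MoverWins G c

/-- Player 1 has a winning strategy in the edge-distinguishing game on `G` with `k` colours. -/
def FirstPlayerWinsWith {V : Type} (G : SimpleGraph V) (k : ℕ) : Prop :=
  MoverWins G (fun _ => (none : Option (Fin k)))

/-- Player 1 has a winning strategy in the edge-distinguishing game on `G`, which is played with
`λ(G)` colours. -/
def FirstPlayerWins {V : Type} (G : SimpleGraph V) : Prop :=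
  FirstPlayerWinsWith G (edgeDistinguishingNumber G)

/-! ### Positions that differ by a permutation of the colours -/

/-- The same vertices are coloured, and the same vertices have equal colours. -/
def Same {V : Type} {k : ℕ} (c d : V → Option (Fin k)) : Prop :=
  (∀ v, c v = none ↔ d v = none) ∧ ∀ v w, c v = c w ↔ d v = d w

lemma Same.symm {V : Type} {k : ℕ} {c d : V → Option (Fin k)} (h : Same c d) : Same d c :=
  ⟨fun v => (h.1 v).symm, fun v w => (h.2 v w).symm⟩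

lemma Same.legal {V : Type} {G : SimpleGraph V} {k : ℕ} {c d : V → Option (Fin k)} (h : Same c d)
    (hc : Legal G c) : Legal G d := by
  intro u v x y huv hxy hu hv hx hy he
  refine hc u v x y huv hxy ((h.1 u).not.mpr hu) ((h.1 v).not.mpr hv) ((h.1 x).not.mpr hx)
    ((h.1 y).not.mpr hy) ?_
  rw [Sym2.eq_iff] at he ⊢
  rcases he with ⟨h1, h2⟩ | ⟨h1, h2⟩
  · exact Or.inl ⟨(h.2 u x).mpr h1, (h.2 v y).mpr h2⟩
  · exact Or.inr ⟨(h.2 u y).mpr h1, (h.2 v x).mpr h2⟩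

/-- The number of colours used. -/
def used {V : Type} [Fintype V] {k : ℕ} (c : V → Option (Fin k)) : Finset (Fin k) :=
  univ.filter fun a => ∃ v, c v = some a

lemma Same.card_le {V : Type} [Fintype V] {k : ℕ} {c d : V → Option (Fin k)} (h : Same c d) :
    (used c).card ≤ (used d).card := by
  classical
  have hex : ∀ a : Fin k, ∃ b : Fin k, a ∈ used c → ∃ v, c v = some a ∧ d v = some b := by
    intro a
    by_cases ha : a ∈ used c
    · obtain ⟨v, hv⟩ := (mem_filter.mp ha).2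
      have h1 : d v ≠ none := (h.1 v).not.mp (by rw [hv]; simp)
      obtain ⟨b, hb⟩ := Option.ne_none_iff_exists'.mp h1
      exact ⟨b, fun _ => ⟨v, hv, hb⟩⟩
    · exact ⟨a, fun h => absurd h ha⟩
  choose g hg using hex
  refine card_le_card_of_injOn g ?_ ?_
  · intro a ha
    obtain ⟨v, _, h2⟩ := hg a ha
    exact mem_filter.mpr ⟨mem_univ _, v, h2⟩
  · intro a ha b hb hab
    obtain ⟨v, h1, h2⟩ := hg a ha
    obtain ⟨w, h3, h4⟩ := hg b hb
    have h5 : d v = d w := by rw [h2, h4, hab]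
    have h6 := (h.2 v w).mpr h5
    rw [h1, h3] at h6
    exact Option.some_injective _ h6

lemma Same.move {V : Type} [Fintype V] {G : SimpleGraph V} {k : ℕ} {c d c' : V → Option (Fin k)}
    (h : Same c d) (hm : Move G c c') : ∃ d', Move G d d' ∧ Same c' d' := by
  classical
  obtain ⟨⟨v, hv, hv', hw⟩, hl⟩ := hm
  obtain ⟨a, ha⟩ := Option.ne_none_iff_exists'.mp hv'
  -- the new colour
  obtain ⟨a', ha'⟩ : ∃ a' : Fin k, ∀ w, c w = some a ↔ d w = some a' := by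
    by_cases hex : ∃ w, c w = some a
    · obtain ⟨w, hwa⟩ := hex
      have h1 : d w ≠ none := (h.1 w).not.mp (by rw [hwa]; simp)
      obtain ⟨b, hb⟩ := Option.ne_none_iff_exists'.mp h1
      refine ⟨b, fun u => ?_⟩
      rw [← hwa, ← hb]
      exact h.2 u w
    · have h1 : (used c).card < k := by
        have : used c ⊂ univ := by
          rw [Finset.ssubset_univ_iff]
          intro h2
          have h3 : a ∈ used c := h2 ▸ mem_univ a
          exact hex (mem_filter.mp h3).2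
        have := card_lt_card this
        simpa using this
      have h2 : (used d).card < k := lt_of_le_of_lt h.symm.card_le h1
      obtain ⟨b, hb⟩ : ∃ b, b ∉ used d := by
        by_contra hcon
        push Not at hcon
        have : used d = univ := eq_univ_iff_forall.mpr hcon
        rw [this] at h2
        simp at h2
      refine ⟨b, fun u => ⟨fun h3 => absurd ⟨u, h3⟩ hex, fun h3 => ?_⟩⟩
      exact absurd (mem_filter.mpr ⟨mem_univ _, u, h3⟩) hb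
  have hdv : d v = none := (h.1 v).mp hv
  have hS : Same c' (Function.update d v (some a')) := by
    constructor
    · intro w
      by_cases hwv : w = v
      · subst hwv
        simp [ha]
      · rw [hw w hwv, Function.update_of_ne hwv]
        exact h.1 w
    · intro u w
      by_cases huv : u = v
      · by_cases hwv : w = v
        · subst huv; subst hwv; simp
        · subst huv
          rw [hw w hwv, Function.update_of_ne hwv, Function.update_self, ha, eq_comm, ha' w,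
            eq_comm]
      · by_cases hwv : w = v
        · subst hwv
          rw [hw u huv, Function.update_of_ne huv, Function.update_self, ha]
          exact ha' u
        · rw [hw u huv, hw w hwv, Function.update_of_ne huv, Function.update_of_ne hwv]
          exact h.2 u w
  refine ⟨Function.update d v (some a'), ⟨⟨v, hdv, by simp, fun w hwv => by
    rw [Function.update_of_ne hwv]⟩, hS.legal hl⟩, hS⟩

lemma MoverWins.same {V : Type} [Fintype V] {G : SimpleGraph V} {k : ℕ} {c : V → Option (Fin k)}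
    (hc : MoverWins G c) : ∀ d, Same c d → MoverWins G d := by
  induction hc with
  | intro c c' h h' ih =>
    intro d hd
    obtain ⟨d', hd', hs⟩ := hd.move h
    refine MoverWins.intro d d' hd' fun d'' hd'' => ?_
    obtain ⟨c'', hc'', hs'⟩ := hs.symm.move hd''
    exact ih c'' hc'' d'' hs'.symm

/-! ### Representation of positions by lists -/

/-- The entry with index `i`. -/
def look (l : List ℕ) (i : ℕ) : ℕ := l.getD i 0

/-- The code of a colour; `none` has the code `0`. -/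
def cd {k : ℕ} : Option (Fin k) → ℕ
  | none => 0
  | some a => a + 1

lemma cd_inj {k : ℕ} {x y : Option (Fin k)} : cd x = cd y ↔ x = y := by
  constructor
  · cases x <;> cases y <;> simp [cd, Fin.ext_iff]
  · rintro rfl; rfl

lemma cd_zero {k : ℕ} {x : Option (Fin k)} : cd x = 0 ↔ x = none := by
  cases x <;> simp [cd]

lemma cd_le {k : ℕ} (x : Option (Fin k)) : cd x ≤ k := by
  cases x with
  | none => simp [cd]
  | some a => simp only [cd]; omega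

/-- The list `l` represents the position `c`. -/
def Rep {n k : ℕ} (l : List ℕ) (c : Fin n → Option (Fin k)) : Prop :=
  ∀ i : Fin n, look l i = cd (c i)

/-- The bits of the pair of the colours `a`, `b` (no bit if one of them is `0`). -/
def mask (a b : ℕ) : ℕ :=
  bif (Nat.beq a 0 || Nat.beq b 0) then 0 else Nat.lor (2 ^ (a * 8 + b)) (2 ^ (b * 8 + a))

/-- Legality test: `x`, `y` are the two entries before the list, `seen` are the bits of the pairs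
of colours of the earlier edges. -/
def legalGo : List ℕ → ℕ → ℕ → ℕ → Bool
  | [], _, _, _ => true
  | a :: l, x, y, seen =>
    Nat.beq (Nat.land seen (mask x a)) 0 && Nat.beq (Nat.land seen (mask y a)) 0 &&
      Nat.beq (Nat.land (mask x a) (mask y a)) 0 &&
        legalGo l y a (Nat.lor seen (Nat.lor (mask x a) (mask y a)))

/-- The bits of all edges. -/
def masks : List ℕ → ℕ → ℕ → List ℕ
  | [], _, _ => []
  | a :: l, x, y => mask x a :: mask y a :: masks l y a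

lemma legalGo_iff (l : List ℕ) : ∀ x y seen, legalGo l x y seen = true ↔
    (∀ m ∈ masks l x y, seen &&& m = 0) ∧ (masks l x y).Pairwise fun m m' => m &&& m' = 0 := by
  induction l with
  | nil => intro x y seen; simp [legalGo, masks]
  | cons a l ih =>
    intro x y seen
    simp only [legalGo, masks, Bool.and_eq_true, Nat.beq_eq, ih, List.mem_cons,
      List.pairwise_cons]
    have h1 : ∀ m, (seen.lor ((mask x a).lor (mask y a))) &&& m = 0 ↔
        seen &&& m = 0 ∧ mask x a &&& m = 0 ∧ mask y a &&& m = 0 := by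
      intro m
      show (seen ||| (mask x a ||| mask y a)) &&& m = 0 ↔ _
      rw [Nat.and_or_distrib_right, Nat.and_or_distrib_right, Nat.or_eq_zero_iff,
        Nat.or_eq_zero_iff]
    simp only [h1]
    show ((seen &&& mask x a = 0 ∧ seen &&& mask y a = 0) ∧ mask x a &&& mask y a = 0) ∧ _ ↔ _
    constructor
    · rintro ⟨⟨⟨h2, h3⟩, h4⟩, h5, h6⟩
      refine ⟨?_, ?_, ?_, h6⟩
      · rintro m (rfl | rfl | hm)
        · exact h2
        · exact h3
        · exact (h5 m hm).1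
      · rintro m (rfl | hm)
        · exact h4
        · exact (h5 m hm).2.1
      · intro m hm
        exact (h5 m hm).2.2
    · rintro ⟨h2, h3, h4, h5⟩
      exact ⟨⟨⟨h2 _ (Or.inl rfl), h2 _ (Or.inr (Or.inl rfl))⟩, h3 _ (Or.inl rfl)⟩,
        fun m hm => ⟨h2 m (Or.inr (Or.inr hm)), h3 m (Or.inr hm), h4 m hm⟩, h5⟩

/-- The edges, with all indices increased by `2`. -/
def E (n : ℕ) : List (ℕ × ℕ) := (List.range n).flatMap fun i => [(i, i + 2), (i + 1, i + 2)]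

lemma E_succ (n : ℕ) : E (n + 1) = (0, 2) :: (1, 2) :: (E n).map fun e => (e.1 + 1, e.2 + 1) := by
  unfold E
  rw [List.range_succ_eq_map, List.flatMap_cons, List.flatMap_map, List.map_flatMap]
  rfl

lemma mem_E {n : ℕ} {e : ℕ × ℕ} :
    e ∈ E n ↔ ∃ i, i < n ∧ (e = (i, i + 2) ∨ e = (i + 1, i + 2)) := by
  simp [E, List.mem_flatMap]

lemma nodup_E (n : ℕ) : (E n).Nodup := by
  induction n with
  | zero => simp [E]
  | succ n ih =>
    rw [E_succ, List.nodup_cons, List.nodup_cons]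
    refine ⟨?_, ?_, ?_⟩
    · rw [List.mem_cons, List.mem_map]
      rintro (h | ⟨e, _, h⟩)
      · simp at h
      · simp at h
    · rw [List.mem_map]
      rintro ⟨e, he, h⟩
      obtain ⟨i, _, h2 | h2⟩ := mem_E.mp he
      · subst h2; simp at h
      · subst h2; simp at h
    · refine ih.map ?_
      rintro ⟨a, b⟩ ⟨a', b'⟩ h
      simpa using h

lemma masks_eq (l : List ℕ) : ∀ x y, masks l x y = (E l.length).map fun e =>
    mask (look (x :: y :: l) e.1) (look (x :: y :: l) e.2) := by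
  induction l with
  | nil => intro x y; simp [masks, E]
  | cons a l ih =>
    intro x y
    rw [masks, ih, List.length_cons, E_succ, List.map_cons, List.map_cons, List.map_map]
    rfl

lemma mask_disjoint' : ∀ a b a' b' : Fin 8, (mask a b &&& mask a' b' = 0 ↔
    (a = 0 ∨ b = 0 ∨ ¬ ((a = a' ∧ b = b') ∨ (a = b' ∧ b = a')))) := by
  decide +kernel

lemma mask_disjoint (a : ℕ) (ha : a < 8) (b : ℕ) (hb : b < 8) (a' : ℕ) (ha' : a' < 8) (b' : ℕ)
    (hb' : b' < 8) : mask a b &&& mask a' b' = 0 ↔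
      (a = 0 ∨ b = 0 ∨ ¬ ((a = a' ∧ b = b') ∨ (a = b' ∧ b = a'))) := by
  have h := mask_disjoint' ⟨a, ha⟩ ⟨b, hb⟩ ⟨a', ha'⟩ ⟨b', hb'⟩
  simpa only [Fin.ext_iff, Fin.val_zero] using h

/-- The legality test for the list `l`. -/
def legalL (l : List ℕ) : Bool := legalGo l 0 0 0

lemma look_cons (x : ℕ) (l : List ℕ) (i : ℕ) : look (x :: l) (i + 1) = look l i := rfl

lemma legalL_iff' {l : List ℕ} (hb : ∀ i, look l i < 8) : legalL l = true ↔
    ∀ i j i' j' : ℕ, (j = i + 1 ∨ j = i + 2) → (j' = i' + 1 ∨ j' = i' + 2) → j < l.length →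
      j' < l.length → look l i ≠ 0 → look l j ≠ 0 →
      ((look l i = look l i' ∧ look l j = look l j') ∨
        (look l i = look l j' ∧ look l j = look l i')) → i = i' ∧ j = j' := by
  have hb' : ∀ i, look (0 :: 0 :: l) i < 8 := by
    intro i
    match i with
    | 0 => exact (by norm_num : (0 : ℕ) < 8)
    | 1 => exact (by norm_num : (0 : ℕ) < 8)
    | i + 2 => exact hb i
  unfold legalL
  rw [legalGo_iff, masks_eq]
  have h0 : (∀ m ∈ (E l.length).map fun e => mask (look (0 :: 0 :: l) e.1)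
      (look (0 :: 0 :: l) e.2), (0 : ℕ) &&& m = 0) := fun m _ => Nat.zero_and m
  rw [and_iff_right h0, List.pairwise_map]
  constructor
  · intro H i j i' j' hij hij' hj hj' h1 h2 h3
    by_contra hne
    have hsymm : Std.Symm fun e e' : ℕ × ℕ => mask (look (0 :: 0 :: l) e.1)
        (look (0 :: 0 :: l) e.2) &&& mask (look (0 :: 0 :: l) e'.1)
        (look (0 :: 0 :: l) e'.2) = 0 := ⟨fun e e' h => by rw [Nat.land_comm]; exact h⟩
    have he : (i + 2, j + 2) ∈ E l.length := by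
      rw [mem_E]
      exact ⟨j, hj, by rcases hij with rfl | rfl <;> simp⟩
    have he' : (i' + 2, j' + 2) ∈ E l.length := by
      rw [mem_E]
      exact ⟨j', hj', by rcases hij' with rfl | rfl <;> simp⟩
    have h4 := H.forall he he' (by
      intro h; rw [Prod.mk.injEq] at h; exact hne ⟨by omega, by omega⟩)
    simp only [look_cons] at h4
    rw [mask_disjoint _ (hb _) _ (hb _) _ (hb _) _ (hb _)] at h4
    rcases h4 with h4 | h4 | h4
    · exact h1 h4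
    · exact h2 h4
    · exact h4 h3
  · intro H
    apply (nodup_E _).pairwise_of_forall_ne
    intro e he e' he' hne
    rw [mask_disjoint _ (hb' _) _ (hb' _) _ (hb' _) _ (hb' _)]
    by_contra hcon
    push Not at hcon
    obtain ⟨h1, h2, h3⟩ := hcon
    -- both edges are edges of `T_n`
    have key : ∀ e ∈ E l.length, look (0 :: 0 :: l) e.1 ≠ 0 → look (0 :: 0 :: l) e.2 ≠ 0 →
        ∃ i j, e = (i + 2, j + 2) ∧ (j = i + 1 ∨ j = i + 2) ∧ j < l.length := by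
      intro e he h1 h2
      obtain ⟨i, hi, rfl | rfl⟩ := mem_E.mp he
      · match i with
        | 0 => exact absurd rfl h1
        | 1 => exact absurd rfl h1
        | i + 2 => exact ⟨i, i + 2, rfl, Or.inr rfl, hi⟩
      · match i with
        | 0 => exact absurd rfl h1
        | i + 1 => exact ⟨i, i + 1, rfl, Or.inl rfl, hi⟩
    have h1' : look (0 :: 0 :: l) e'.1 ≠ 0 := by
      rcases h3 with h3 | h3 <;> [rw [← h3.1]; rw [← h3.2]] <;> assumption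
    have h2' : look (0 :: 0 :: l) e'.2 ≠ 0 := by
      rcases h3 with h3 | h3 <;> [rw [← h3.2]; rw [← h3.1]] <;> assumption
    obtain ⟨i, j, rfl, hij, hj⟩ := key e he h1 h2
    obtain ⟨i', j', rfl, hij', hj'⟩ := key e' he' h1' h2'
    simp only [look_cons] at h1 h2 h3
    obtain ⟨h4, h5⟩ := H i j i' j' hij hij' hj hj' h1 h2 h3
    exact hne (by rw [h4, h5])

lemma look_lt {l : List ℕ} {K : ℕ} (hK : 0 < K) (h : ∀ x ∈ l, x < K) (i : ℕ) : look l i < K := by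
  unfold look
  rw [List.getD_eq_getElem?_getD]
  by_cases hi : i < l.length
  · rw [List.getElem?_eq_getElem hi]
    exact h _ (List.getElem_mem hi)
  · rw [List.getElem?_eq_none (by omega)]
    exact hK

lemma look_ge {l : List ℕ} {i : ℕ} (h : l.length ≤ i) : look l i = 0 := by
  unfold look
  rw [List.getD_eq_getElem?_getD, List.getElem?_eq_none h]
  rfl

lemma Rep.lt {n k : ℕ} {l : List ℕ} {c : Fin n → Option (Fin k)} (h : Rep l c)
    (hl : l.length = n) (hk : k < 8) (i : ℕ) : look l i < 8 := by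
  by_cases hi : i < n
  · have h1 := h ⟨i, hi⟩
    have h2 := cd_le (c ⟨i, hi⟩)
    simp only at h1
    omega
  · rw [look_ge (by omega)]
    norm_num

lemma legalL_iff {n k : ℕ} {l : List ℕ} {c : Fin n → Option (Fin k)} (h : Rep l c)
    (hl : l.length = n) (hk : k < 8) :
    legalL l = true ↔ Legal (triangularLadder n) c := by
  rw [legalL_iff' (h.lt hl hk), hl]
  constructor
  · intro H u v x y huv hxy hu hv hx hy he
    -- normal forms of the edges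
    have key : ∀ u v x y : Fin n, ((v : ℕ) = u + 1 ∨ (v : ℕ) = u + 2) →
        ((y : ℕ) = x + 1 ∨ (y : ℕ) = x + 2) → c u ≠ none → c v ≠ none →
        s(c u, c v) = s(c x, c y) → s(u, v) = s(x, y) := by
      intro u v x y huv hxy hu hv he
      obtain ⟨h1, h2⟩ := H u v x y huv hxy v.2 y.2
        (by rw [h u]; exact fun h0 => hu (cd_zero.mp h0))
        (by rw [h v]; exact fun h0 => hv (cd_zero.mp h0))
        (by
          rw [h u, h v, h x, h y, cd_inj, cd_inj, cd_inj, cd_inj]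
          exact Sym2.eq_iff.mp he)
      rw [Fin.ext h1, Fin.ext h2]
    have norm : ∀ u v : Fin n, (triangularLadder n).Adj u v → c u ≠ none → c v ≠ none →
        ∃ u' v' : Fin n, ((v' : ℕ) = u' + 1 ∨ (v' : ℕ) = u' + 2) ∧ c u' ≠ none ∧ c v' ≠ none ∧
          s(c u, c v) = s(c u', c v') ∧ s(u, v) = s(u', v') := by
      intro u v huv hu hv
      have huv' : (v : ℕ) = u + 1 ∨ (v : ℕ) = u + 2 ∨ (u : ℕ) = v + 1 ∨ (u : ℕ) = v + 2 := huv
      by_cases h1 : (v : ℕ) = u + 1 ∨ (v : ℕ) = u + 2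
      · exact ⟨u, v, h1, hu, hv, rfl, rfl⟩
      · exact ⟨v, u, by omega, hv, hu, Sym2.eq_swap, Sym2.eq_swap⟩
    obtain ⟨u', v', h1, h2, h3, h4, h5⟩ := norm u v huv hu hv
    obtain ⟨x', y', h6, -, -, h9, h10⟩ := norm x y hxy hx hy
    rw [h5, h10]
    exact key u' v' x' y' h1 h6 h2 h3 (by rw [← h4, ← h9, he])
  · intro H a b a' b' hab hab' hb hb' h1 h2 h3
    have ha : a < n := by omega
    have ha' : a' < n := by omega
    have hua : look l a = cd (c ⟨a, ha⟩) := h ⟨a, ha⟩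
    have hub : look l b = cd (c ⟨b, hb⟩) := h ⟨b, hb⟩
    have hua' : look l a' = cd (c ⟨a', ha'⟩) := h ⟨a', ha'⟩
    have hub' : look l b' = cd (c ⟨b', hb'⟩) := h ⟨b', hb'⟩
    rw [hua] at h1
    rw [hub] at h2
    rw [hua, hub, hua', hub', cd_inj, cd_inj, cd_inj, cd_inj] at h3
    have hn1 : c ⟨a, ha⟩ ≠ none := fun h0 => h1 (cd_zero.mpr h0)
    have hn2 : c ⟨b, hb⟩ ≠ none := fun h0 => h2 (cd_zero.mpr h0)
    have hn3 : c ⟨a', ha'⟩ ≠ none := by
      rcases h3 with h3 | h3 <;> [rw [← h3.1]; rw [← h3.2]] <;> assumption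
    have hn4 : c ⟨b', hb'⟩ ≠ none := by
      rcases h3 with h3 | h3 <;> [rw [← h3.2]; rw [← h3.1]] <;> assumption
    have h4 := H ⟨a, ha⟩ ⟨b, hb⟩ ⟨a', ha'⟩ ⟨b', hb'⟩
      (by show (b : ℕ) = a + 1 ∨ b = a + 2 ∨ a = b + 1 ∨ a = b + 2; tauto)
      (by show (b' : ℕ) = a' + 1 ∨ b' = a' + 2 ∨ a' = b' + 1 ∨ a' = b' + 2; tauto)
      hn1 hn2 hn3 hn4 (Sym2.eq_iff.mpr h3)
    rw [Sym2.eq_iff] at h4
    simp only [Fin.mk.injEq] at h4
    rcases h4 with h4 | h4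
    · exact h4
    · omega

/-! ### Tables of losing positions -/

/-- The largest entry. -/
def mx (l : List ℕ) : ℕ := l.foldr max 0

lemma le_mx (l : List ℕ) (i : ℕ) : look l i ≤ mx l := by
  induction l generalizing i with
  | nil => simp [look]
  | cons a l ih =>
    cases i with
    | zero => simp [look, mx]
    | succ i =>
      have := ih i
      simp only [look, List.getD_cons_succ, mx, List.foldr_cons] at this ⊢
      exact le_trans this (le_max_right _ _)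

/-- Equality of lists. -/
def eqL : List ℕ → List ℕ → Bool
  | [], [] => true
  | a :: l, b :: l' => Nat.beq a b && eqL l l'
  | _, _ => false

/-- Test of the answer `h` to the move that leads to `s`. -/
def okReply (n k : ℕ) (T : List (List ℕ × List (ℕ × ℕ × ℕ × ℕ))) (P : List (List ℕ))
    (s : List ℕ) (h : ℕ × ℕ × ℕ × ℕ) : Bool :=
  Nat.beq (look s h.1) 0 && Nat.ble (h.1 + 1) n && Nat.ble (h.2.1 + 1) k &&
    Nat.ble (h.2.2.1 + 1) P.length && legalL (s.set h.1 (h.2.1 + 1)) &&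
      eqL ((s.set h.1 (h.2.1 + 1)).map (look (P.getD h.2.2.1 []))) (T.getD h.2.2.2 ([], [])).1

/-- Test that each move from the position `s` in the list has an answer. -/
def goMoves (n k : ℕ) (T : List (List ℕ × List (ℕ × ℕ × ℕ × ℕ))) (P : List (List ℕ))
    (s : List ℕ) (m : ℕ) : List (ℕ × ℕ) → List (ℕ × ℕ × ℕ × ℕ) → Bool
  | [], _ => true
  | (i, a) :: ms, hs =>
    bif Nat.beq (look s i) 0 && Nat.ble a m && legalL (s.set i (a + 1)) then
      (match hs with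
        | [] => false
        | h :: hs => okReply n k T P (s.set i (a + 1)) h && goMoves n k T P s m ms hs)
    else goMoves n k T P s m ms hs

/-- All pairs of a vertex and a colour. -/
def allMoves (n k : ℕ) : List (ℕ × ℕ) := (List.range n).flatMap fun i =>
  (List.range k).map fun a => (i, a)

/-- Test of an entry of the table. -/
def checkEntry (n k : ℕ) (T : List (List ℕ × List (ℕ × ℕ × ℕ × ℕ))) (P : List (List ℕ))
    (p : List ℕ × List (ℕ × ℕ × ℕ × ℕ)) : Bool :=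
  Nat.beq p.1.length n && (p.1.all fun x => Nat.ble x k) &&
    goMoves n k T P p.1 (mx p.1) (allMoves n k) p.2

/-- The list is a permutation of the colours that fixes `0`. -/
def permOK (k : ℕ) (p : List ℕ) : Bool :=
  Nat.beq (look p 0) 0 && (List.range (k + 1)).all fun i => (List.range (k + 1)).all fun j =>
    Nat.beq i j || !Nat.beq (look p i) (look p j)

lemma eqL_eq : ∀ l l' : List ℕ, eqL l l' = true → l = l' := by
  intro l
  induction l with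
  | nil => intro l' h; cases l' with
    | nil => rfl
    | cons b l' => simp [eqL] at h
  | cons a l ih => intro l' h; cases l' with
    | nil => simp [eqL] at h
    | cons b l' =>
      simp only [eqL, Bool.and_eq_true, Nat.beq_eq] at h
      rw [h.1, ih l' h.2]

lemma goMoves_sound {n k : ℕ} {T : List (List ℕ × List (ℕ × ℕ × ℕ × ℕ))} {P : List (List ℕ)}
    {s : List ℕ} {m : ℕ} (ms : List (ℕ × ℕ)) : ∀ hs, goMoves n k T P s m ms hs = true →
      ∀ i a, (i, a) ∈ ms → look s i = 0 → a ≤ m → legalL (s.set i (a + 1)) = true →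
        ∃ h, okReply n k T P (s.set i (a + 1)) h = true := by
  induction ms with
  | nil => intro hs _ i a hia; simp at hia
  | cons x ms ih =>
    obtain ⟨i', a'⟩ := x
    intro hs hgo i a hia h1 h2 h3
    unfold goMoves at hgo
    by_cases hc : (Nat.beq (look s i') 0 && Nat.ble a' m && legalL (s.set i' (a' + 1))) = true
    · rw [hc, cond_true] at hgo
      cases hs with
      | nil => simp at hgo
      | cons h hs =>
        simp only [Bool.and_eq_true] at hgo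
        rcases List.mem_cons.mp hia with heq | hmem
        · rw [Prod.mk.injEq] at heq
          rw [heq.1, heq.2]
          exact ⟨h, hgo.1⟩
        · exact ih hs hgo.2 i a hmem h1 h2 h3
    · rw [Bool.not_eq_true] at hc
      rw [hc, cond_false] at hgo
      rcases List.mem_cons.mp hia with heq | hmem
      · rw [Prod.mk.injEq] at heq
        exfalso
        rw [← heq.1, ← heq.2, h3, Bool.and_true, Bool.and_eq_false_iff] at hc
        rcases hc with hc | hc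
        · rw [h1] at hc
          exact absurd hc (by decide)
        · rw [← Bool.not_eq_true, Nat.ble_eq] at hc
          exact hc h2
      · exact ih hs hgo i a hmem h1 h2 h3

lemma look_set {l : List ℕ} {i : ℕ} (hi : i < l.length) (x j : ℕ) :
    look (l.set i x) j = if j = i then x else look l j := by
  unfold look
  rw [List.getD_eq_getElem?_getD, List.getD_eq_getElem?_getD, List.getElem?_set]
  by_cases h : j = i
  · subst h
    simp [hi]
  · rw [if_neg (fun h' => h h'.symm), if_neg h]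

lemma look_map {l : List ℕ} {i : ℕ} (hi : i < l.length) (f : ℕ → ℕ) :
    look (l.map f) i = f (look l i) := by
  unfold look
  rw [List.getD_eq_getElem?_getD, List.getD_eq_getElem?_getD, List.getElem?_map,
    List.getElem?_eq_getElem hi]
  rfl

lemma rep_update {n k : ℕ} {l : List ℕ} {c : Fin n → Option (Fin k)} (h : Rep l c)
    (hl : l.length = n) (v : Fin n) (a : Fin k) :
    Rep (l.set v ((a : ℕ) + 1)) (Function.update c v (some a)) := by
  intro i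
  rw [look_set (by rw [hl]; exact v.2)]
  by_cases hi : i = v
  · subst hi
    simp [cd]
  · rw [if_neg (fun h' => hi (Fin.ext h')), Function.update_of_ne hi]
    exact h i

theorem table_sound {n k : ℕ} (hk8 : k < 8) (T : List (List ℕ × List (ℕ × ℕ × ℕ × ℕ)))
    (P : List (List ℕ)) (hP : P.all (permOK k) = true)
    (hT : T.all (checkEntry n k T P) = true) :
    ∀ m, ∀ c : Fin n → Option (Fin k), (univ.filter fun i => c i = none).card ≤ m →
      (∃ p ∈ T, Rep p.1 c) → ∀ c', Move (triangularLadder n) c c' →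
        MoverWins (triangularLadder n) c' := by
  classical
  have hT' : ∀ p ∈ T, p.1.length = n ∧ (∀ x ∈ p.1, x ≤ k) ∧
      goMoves n k T P p.1 (mx p.1) (allMoves n k) p.2 = true := by
    intro p hp
    have h1 := List.all_eq_true.mp hT p hp
    simp only [checkEntry, Bool.and_eq_true, Nat.beq_eq, List.all_eq_true, Nat.ble_eq] at h1
    exact ⟨h1.1.1, h1.1.2, h1.2⟩
  intro m
  induction m with
  | zero =>
    intro c hm _ c' hmove
    obtain ⟨⟨v, hv, -, -⟩, -⟩ := hmove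
    exfalso
    have : v ∈ univ.filter fun i => c i = none := mem_filter.mpr ⟨mem_univ _, hv⟩
    rw [Nat.le_zero, card_eq_zero] at hm
    rw [hm] at this
    simp at this
  | succ m ih =>
    intro c hm hpos c' hmove
    obtain ⟨⟨s, R⟩, hp, hrep⟩ := hpos
    obtain ⟨hlen, hbd, hone⟩ := hT' _ hp
    simp only at hrep hlen hbd hone
    obtain ⟨⟨v, hv, hv', hw⟩, hl⟩ := hmove
    obtain ⟨a, ha⟩ := Option.ne_none_iff_exists'.mp hv'
    have hc' : c' = Function.update c v (some a) := by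
      funext w
      by_cases hwv : w = v
      · subst hwv; simp [ha]
      · rw [hw w hwv, Function.update_of_ne hwv]
    -- a colour in the canonical range
    obtain ⟨a₁, ha₁, hsame⟩ : ∃ a₁ : Fin k, (a₁ : ℕ) ≤ mx s ∧
        Same (Function.update c v (some a₁)) c' := by
      by_cases hle : (a : ℕ) ≤ mx s
      · exact ⟨a, hle, by rw [hc']; exact ⟨fun _ => Iff.rfl, fun _ _ => Iff.rfl⟩⟩
      · push Not at hle
        have hlt : mx s < k := lt_trans hle a.2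
        refine ⟨⟨mx s, hlt⟩, le_rfl, ?_⟩
        have hun : ∀ b : Fin k, mx s ≤ (b : ℕ) → ∀ w, c w ≠ some b := by
          intro b hb w hwb
          have h1 := hrep w
          rw [hwb] at h1
          have h2 := le_mx s w
          simp only [cd] at h1
          omega
        rw [hc']
        constructor
        · intro w
          by_cases hwv : w = v
          · subst hwv; simp
          · rw [Function.update_of_ne hwv, Function.update_of_ne hwv]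
        · intro u w
          by_cases huv : u = v
          · by_cases hwv : w = v
            · subst huv; subst hwv; simp
            · subst huv
              rw [Function.update_of_ne hwv, Function.update_of_ne hwv, Function.update_self,
                Function.update_self]
              exact ⟨fun h => absurd h.symm (hun _ le_rfl w),
                fun h => absurd h.symm (hun _ hle.le w)⟩
          · by_cases hwv : w = v
            · subst hwv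
              rw [Function.update_of_ne huv, Function.update_of_ne huv, Function.update_self,
                Function.update_self]
              exact ⟨fun h => absurd h (hun _ le_rfl u), fun h => absurd h (hun _ hle.le u)⟩
            · rw [Function.update_of_ne huv, Function.update_of_ne huv,
                Function.update_of_ne hwv, Function.update_of_ne hwv]
    set c₁ := Function.update c v (some a₁) with hc₁
    have hl₁ : Legal (triangularLadder n) c₁ := hsame.symm.legal hl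
    have hrep₁ : Rep (s.set v ((a₁ : ℕ) + 1)) c₁ := rep_update hrep hlen v a₁
    have hlen₁ : (s.set v ((a₁ : ℕ) + 1)).length = n := by rw [List.length_set, hlen]
    -- the answer
    have hmem : ((v : ℕ), (a₁ : ℕ)) ∈ allMoves n k := by
      simp only [allMoves, List.mem_flatMap, List.mem_map, List.mem_range]
      exact ⟨v, v.2, a₁, a₁.2, rfl⟩
    obtain ⟨⟨j, b, pi, ti⟩, hok⟩ := goMoves_sound _ _ hone v a₁ hmem
      (by rw [hrep v]; exact cd_zero.mpr hv) ha₁ ((legalL_iff hrep₁ hlen₁ hk8).mpr hl₁)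
    simp only [okReply, Bool.and_eq_true, Nat.beq_eq, Nat.ble_eq] at hok
    obtain ⟨⟨⟨⟨⟨hj0, hjn⟩, hbk⟩, hpil⟩, hleg⟩, heq⟩ := hok
    have hjn' : j < n := hjn
    have hbk' : b < k := hbk
    set c₂ := Function.update c₁ (⟨j, hjn'⟩ : Fin n) (some ⟨b, hbk'⟩) with hc₂
    have hrep₂ : Rep ((s.set v ((a₁ : ℕ) + 1)).set j (b + 1)) c₂ :=
      rep_update hrep₁ hlen₁ ⟨j, hjn'⟩ ⟨b, hbk'⟩
    have hlen₂ : ((s.set v ((a₁ : ℕ) + 1)).set j (b + 1)).length = n := by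
      rw [List.length_set, hlen₁]
    have hl₂ : Legal (triangularLadder n) c₂ := (legalL_iff hrep₂ hlen₂ hk8).mp hleg
    have hj : c₁ ⟨j, hjn'⟩ = none := by
      have := hrep₁ ⟨j, hjn'⟩
      simp only at this
      rw [hj0] at this
      exact cd_zero.mp this.symm
    -- the position of the table
    have heq' := eqL_eq _ _ heq
    have hti : ti < T.length := by
      by_contra hcon
      push Not at hcon
      have h0 : T.getD ti ([], []) = ([], []) := by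
        rw [List.getD_eq_getElem?_getD, List.getElem?_eq_none hcon]; rfl
      rw [h0] at heq'
      have h1 := congrArg List.length heq'
      rw [List.length_map, hlen₂] at h1
      have h2 : n = 0 := h1
      omega
    obtain ⟨t, ht, hteq⟩ : ∃ t ∈ T, t.1 = ((s.set v ((a₁ : ℕ) + 1)).set j (b + 1)).map
        (look (P.getD pi [])) := by
      refine ⟨T[ti], List.getElem_mem hti, ?_⟩
      have h0 : T.getD ti ([], []) = T[ti] := by
        rw [List.getD_eq_getElem?_getD, List.getElem?_eq_getElem hti]; rfl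
      rw [heq', h0]
    obtain ⟨hlent, hbdt, -⟩ := hT' t ht
    have hlook : ∀ i : ℕ, look t.1 i < k + 1 :=
      look_lt (Nat.succ_pos k) fun x hx => Nat.lt_succ_of_le (hbdt x hx)
    -- the permutation
    have hperm : look (P.getD pi []) 0 = 0 ∧ ∀ x ≤ k, ∀ y ≤ k,
        look (P.getD pi []) x = look (P.getD pi []) y → x = y := by
      have hpi : pi < P.length := hpil
      have h1 := List.all_eq_true.mp hP _ (List.getElem_mem hpi)
      have h2 : P.getD pi [] = P[pi] := by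
        rw [List.getD_eq_getElem?_getD, List.getElem?_eq_getElem hpi]; rfl
      rw [h2]
      simp only [permOK, Bool.and_eq_true, Nat.beq_eq, List.all_eq_true, List.mem_range,
        Bool.or_eq_true, Bool.not_eq_true'] at h1
      refine ⟨h1.1, fun x hx y hy hxy => ?_⟩
      rcases h1.2 x (by omega) y (by omega) with h3 | h3
      · exact h3
      · rw [← Bool.not_eq_true, Nat.beq_eq] at h3
        exact absurd hxy h3
    let d : Fin n → Option (Fin k) := fun i =>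
      if h : look t.1 i = 0 then none else some ⟨look t.1 i - 1, by have := hlook i; omega⟩
    have hrepd : Rep t.1 d := by
      intro i
      by_cases h : look t.1 i = 0
      · simp only [d, dif_pos h, cd, h]
      · simp only [d, dif_neg h, cd]
        omega
    have hmap : ∀ i : Fin n, cd (d i) = look (P.getD pi []) (cd (c₂ i)) := by
      intro i
      rw [← hrepd i, ← hrep₂ i, hteq, look_map (by rw [hlen₂]; exact i.2)]
    have hsd : Same c₂ d := by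
      constructor
      · intro i
        rw [← cd_zero, ← cd_zero (x := d i), hmap i]
        constructor
        · intro h; rw [h]; exact hperm.1
        · intro h
          exact hperm.2 _ (cd_le _) _ (Nat.zero_le _) (h.trans hperm.1.symm)
      · intro i j
        rw [← cd_inj, ← cd_inj (x := d i), hmap i, hmap j]
        exact ⟨fun h => by rw [h], hperm.2 _ (cd_le _) _ (cd_le _)⟩
    have hnone : (univ.filter fun i => d i = none).card ≤ m := by
      have h3 : (univ.filter fun i => d i = none) ⊂ univ.filter fun i => c i = none := by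
        rw [Finset.ssubset_iff_of_subset]
        · refine ⟨v, mem_filter.mpr ⟨mem_univ _, hv⟩, ?_⟩
          rw [mem_filter]
          rintro ⟨-, h4⟩
          have h5 := (hsd.1 v).mpr h4
          by_cases hvj : v = ⟨j, hjn'⟩
          · rw [hc₂, hvj, Function.update_self] at h5
            simp at h5
          · rw [hc₂, Function.update_of_ne hvj, hc₁, Function.update_self] at h5
            simp at h5
        · intro i hi
          have h4 := (hsd.1 i).mpr (mem_filter.mp hi).2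
          refine mem_filter.mpr ⟨mem_univ _, ?_⟩
          by_cases hij : i = ⟨j, hjn'⟩
          · rw [hc₂, hij, Function.update_self] at h4
            simp at h4
          · rw [hc₂, Function.update_of_ne hij] at h4
            by_cases hiv : i = v
            · rw [hc₁, hiv, Function.update_self] at h4
              simp at h4
            · rw [hc₁, Function.update_of_ne hiv] at h4
              exact h4
      have := card_lt_card h3
      omega
    have hwin : MoverWins (triangularLadder n) c₁ := by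
      refine MoverWins.intro c₁ c₂ ⟨⟨⟨j, hjn'⟩, hj, ?_, ?_⟩, hl₂⟩ ?_
      · rw [hc₂, Function.update_self]; simp
      · intro w hwj
        rw [hc₂, Function.update_of_ne hwj]
      · intro c₃ hc₃
        obtain ⟨d₃, hd₃, hs₃⟩ := hsd.move hc₃
        exact (ih d hnone ⟨t, ht, hrepd⟩ d₃ hd₃).same c₃ hs₃.symm
    exact hwin.same c' hsame

/-- If the table has a position with one coloured vertex then Player 1 wins. -/
theorem wins_of_table {n k : ℕ} (hk8 : k < 8) (T : List (List ℕ × List (ℕ × ℕ × ℕ × ℕ)))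
    (P : List (List ℕ)) (hP : P.all (permOK k) = true) (hT : T.all (checkEntry n k T P) = true)
    (v : Fin n) (a : Fin k) (p : List ℕ × List (ℕ × ℕ × ℕ × ℕ)) (hp : p ∈ T)
    (h : p.1 = (List.replicate n 0).set v ((a : ℕ) + 1)) :
    FirstPlayerWinsWith (triangularLadder n) k := by
  classical
  have hrep0 : Rep (List.replicate n 0) (fun _ : Fin n => (none : Option (Fin k))) := by
    intro i
    simp [look, cd]
  have hrep := rep_update hrep0 (List.length_replicate) v a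
  rw [← h] at hrep
  refine MoverWins.intro _ _ ⟨⟨v, rfl, ?_, fun w hw => ?_⟩, ?_⟩
    (table_sound hk8 T P hP hT _ (Function.update (fun _ => none) v (some a)) le_rfl ⟨p, hp, hrep⟩)
  · rw [Function.update_self]; simp
  · rw [Function.update_of_ne hw]
  · intro u w x y huw _ hu hw' _ _ _
    exfalso
    by_cases huv : u = v
    · by_cases hwv : w = v
      · subst huv; subst hwv
        exact (triangularLadder n).loopless.irrefl _ huw
      · rw [Function.update_of_ne hwv] at hw'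
        exact hw' rfl
    · rw [Function.update_of_ne huv] at hu
      exact hu rfl

/-! ### The edge-distinguishing chromatic number -/

/-- Try to extend the colouring `l` of the first vertices by `m` more vertices. -/
def ext (k : ℕ) : ℕ → List ℕ → Bool
  | 0, _ => true
  | m + 1, l => (List.range k).any fun a => legalL (l ++ [a + 1]) && ext k m (l ++ [a + 1])

/-- The list of the first colours. -/
def prefixL {n k : ℕ} (c : Fin n → Fin k) (m : ℕ) (hm : m ≤ n) : List ℕ :=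
  List.ofFn fun i : Fin m => (c ⟨i, by omega⟩ : ℕ) + 1

lemma ext_of_colouring {n k : ℕ} (hk : k < 8) (c : Fin n → Fin k)
    (hc : EdgeDistinguishing (triangularLadder n) c) :
    ∀ m (hm : m ≤ n), ext k m (prefixL c (n - m) (by omega)) = true := by
  intro m
  induction m with
  | zero => intro _; rfl
  | succ m ih =>
    intro hm
    have hlt : n - (m + 1) < n := by omega
    have heq : prefixL c (n - (m + 1)) (by omega) ++ [(c ⟨n - (m + 1), hlt⟩ : ℕ) + 1]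
        = prefixL c (n - m) (by omega) := by
      unfold prefixL
      apply List.ext_getElem
      · simp only [List.length_append, List.length_ofFn, List.length_singleton]
        omega
      · intro i h1 h2
        simp only [List.length_append, List.length_ofFn, List.length_singleton] at h1
        rw [List.getElem_append]
        split_ifs with h3
        · simp
        · simp only [List.length_ofFn] at h3
          have h4 : i = n - (m + 1) := by omega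
          subst h4
          simp
    simp only [ext, List.any_eq_true, Bool.and_eq_true]
    refine ⟨(c ⟨n - (m + 1), hlt⟩ : ℕ), List.mem_range.mpr (c _).2, ?_, ?_⟩
    · rw [heq]
      have hrep : Rep (prefixL c (n - m) (by omega))
          (fun i : Fin (n - m) => some (c ⟨i, by omega⟩)) := by
        intro i
        simp [look, cd, prefixL, List.getD_eq_getElem?_getD]
      rw [legalL_iff hrep (by simp [prefixL]) hk]
      intro u v x y huv hxy _ _ _ _ he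
      have h1 := hc ⟨u, by omega⟩ ⟨v, by omega⟩ ⟨x, by omega⟩ ⟨y, by omega⟩ huv hxy (by
        rw [Sym2.eq_iff] at he ⊢
        simpa only [Option.some.injEq] using he)
      rw [Sym2.eq_iff] at h1 ⊢
      simpa only [Fin.mk.injEq, Fin.ext_iff] using h1
    · rw [heq]
      exact ih (by omega)

lemma exists_perm (x y z : Fin 6) (hxy : x ≠ y) (hxz : x ≠ z) (hyz : y ≠ z) :
    ∃ σ : Equiv.Perm (Fin 6), σ x = 0 ∧ σ y = 1 ∧ σ z = 2 := by
  let s₁ := Equiv.swap x 0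
  have h1 : s₁ x = 0 := Equiv.swap_apply_left _ _
  have hy : s₁ y ≠ 0 := fun h => hxy (s₁.injective (h1.trans h.symm))
  let s₂ := Equiv.swap (s₁ y) 1
  have h2 : s₂ 0 = 0 := Equiv.swap_apply_of_ne_of_ne (Ne.symm hy) (by decide)
  have h3 : s₂ (s₁ y) = 1 := Equiv.swap_apply_left _ _
  have hz : s₂ (s₁ z) ≠ 0 := fun h => hxz (s₁.injective (s₂.injective (by rw [h1, h2, h])))
  have hz' : s₂ (s₁ z) ≠ 1 := fun h => hyz (s₁.injective (s₂.injective (by rw [h3, h])))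
  let s₃ := Equiv.swap (s₂ (s₁ z)) 2
  have h4 : s₃ 0 = 0 := Equiv.swap_apply_of_ne_of_ne (Ne.symm hz) (by decide)
  have h5 : s₃ 1 = 1 := Equiv.swap_apply_of_ne_of_ne (Ne.symm hz') (by decide)
  have h6 : s₃ (s₂ (s₁ z)) = 2 := Equiv.swap_apply_left _ _
  refine ⟨s₁.trans (s₂.trans s₃), ?_, ?_, ?_⟩
  · simp only [Equiv.trans_apply, h1, h2, h4]
  · simp only [Equiv.trans_apply, h3, h5]
  · simp only [Equiv.trans_apply, h6]

lemma no_six : ¬ ∃ c : Fin 8 → Fin 6, EdgeDistinguishing (triangularLadder 8) c := by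
  rintro ⟨c, hc⟩
  -- adjacent vertices of a triangle have different colours
  have key : ∀ u v w : Fin 8, (triangularLadder 8).Adj u w → (triangularLadder 8).Adj v w →
      u ≠ v → c u ≠ c v := by
    intro u v w huw hvw huv h
    have h1 := hc u w v w huw hvw (by rw [h])
    rw [Sym2.eq_iff] at h1
    rcases h1 with h1 | h1
    · exact huv h1.1
    · exact (triangularLadder 8).loopless.irrefl _ (h1.1 ▸ huw)
  have adj : ∀ u v : Fin 8, ((v : ℕ) = u + 1 ∨ (v : ℕ) = u + 2 ∨ (u : ℕ) = v + 1 ∨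
      (u : ℕ) = v + 2) → (triangularLadder 8).Adj u v := fun _ _ h => h
  have h01 : c 0 ≠ c 1 := key 0 1 2 (adj _ _ (by decide)) (adj _ _ (by decide)) (by decide)
  have h02 : c 0 ≠ c 2 := key 0 2 1 (adj _ _ (by decide)) (adj _ _ (by decide)) (by decide)
  have h12 : c 1 ≠ c 2 := key 1 2 0 (adj _ _ (by decide)) (adj _ _ (by decide)) (by decide)
  obtain ⟨σ, hσ0, hσ1, hσ2⟩ := exists_perm (c 0) (c 1) (c 2) h01 h02 h12
  have hc' : EdgeDistinguishing (triangularLadder 8) (fun i => σ (c i)) := by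
    intro u v x y huv hxy he
    refine hc u v x y huv hxy ?_
    rw [Sym2.eq_iff] at he ⊢
    simpa only [σ.injective.eq_iff] using he
  have h1 := ext_of_colouring (by norm_num) _ hc' 5 (by norm_num)
  have h2 : prefixL (fun i => σ (c i)) (8 - 5) (by norm_num) = [1, 2, 3] := by
    have h3 : prefixL (fun i => σ (c i)) (8 - 5) (by norm_num) =
        [(σ (c 0) : ℕ) + 1, (σ (c 1) : ℕ) + 1, (σ (c 2) : ℕ) + 1] := rfl
    rw [h3, hσ0, hσ1, hσ2]
    rfl
  rw [h2] at h1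
  have h3 : ext 6 5 [1, 2, 3] = false := by decide +kernel
  rw [h3] at h1
  exact absurd h1 (by decide)

/-- An edge-distinguishing colouring of `T_n` with `n ≥ 8` has at least `7` colours. -/
lemma lower {n k : ℕ} (hn : 8 ≤ n) (c : Fin n → Fin k)
    (hc : EdgeDistinguishing (triangularLadder n) c) : 7 ≤ k := by
  by_contra hk
  push Not at hk
  refine no_six ⟨fun i => ⟨c ⟨i, by omega⟩, by have := (c ⟨i, by omega⟩).2; omega⟩, ?_⟩
  intro u v x y huv hxy he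
  have h1 := hc ⟨u, by omega⟩ ⟨v, by omega⟩ ⟨x, by omega⟩ ⟨y, by omega⟩ huv hxy (by
    rw [Sym2.eq_iff] at he ⊢
    simpa only [Fin.mk.injEq, Fin.ext_iff] using he)
  rw [Sym2.eq_iff] at h1 ⊢
  simpa only [Fin.mk.injEq, Fin.ext_iff] using h1

lemma upper {n : ℕ} (l : List ℕ) (hn : l.length = n) (c : Fin n → Fin 7)
    (h : ∀ i : Fin n, look l i = c i + 1) (hl : legalL l = true) :
    EdgeDistinguishing (triangularLadder n) c := by
  have hrep : Rep l (fun i => some (c i)) := fun i => h i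
  have h1 := (legalL_iff hrep hn (by norm_num)).mp hl
  intro u v x y huv hxy he
  refine h1 u v x y huv hxy (by simp) (by simp) (by simp) (by simp) ?_
  rw [Sym2.eq_iff] at he ⊢
  simpa only [Option.some.injEq] using he

lemma number_eq {n : ℕ} (hn : 8 ≤ n) (c : Fin n → Fin 7)
    (hc : EdgeDistinguishing (triangularLadder n) c) :
    edgeDistinguishingNumber (triangularLadder n) = 7 := by
  unfold edgeDistinguishingNumber
  apply le_antisymm
  · exact Nat.sInf_le ⟨c, hc⟩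
  · have hne : {k | ∃ c : Fin n → Fin k, EdgeDistinguishing (triangularLadder n) c}.Nonempty :=
      ⟨7, c, hc⟩
    obtain ⟨c', hc'⟩ := Nat.sInf_mem hne
    exact lower hn c' hc'

/-! ### The strategies -/

/-- Permutations of the colours that occur in the strategy on `T_8`. -/
def perms8 : List (List ℕ) := [
  [0,1,2,3,4,5,6,7],
  [0,3,1,2,4,5,6,7],
  [0,2,1,3,4,5,6,7],
  [0,3,2,1,4,5,6,7],
  [0,1,3,2,4,5,6,7],
  [0,2,3,1,4,5,6,7],
  [0,3,4,1,2,5,6,7],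
  [0,3,4,2,1,5,6,7],
  [0,2,3,4,1,5,6,7],
  [0,1,3,4,2,5,6,7],
  [0,2,4,5,1,3,6,7],
  [0,2,4,5,3,1,6,7],
  [0,2,3,4,5,1,6,7],
  [0,1,2,4,3,5,6,7],
  [0,1,4,3,2,5,6,7],
  [0,1,3,5,2,4,6,7],
  [0,1,3,5,6,2,4,7],
  [0,1,3,4,6,2,5,7],
  [0,1,3,4,6,5,2,7],
  [0,1,3,4,5,2,6,7],
  [0,1,2,5,6,3,4,7],
  [0,1,2,5,6,4,3,7],
  [0,1,2,5,3,4,6,7],
  [0,1,2,5,4,3,6,7],
  [0,1,2,4,5,3,6,7],
  [0,1,2,3,5,4,6,7]]

/-- Positions of `T_8` in which the player to move loses, each with the list of the answers to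
the possible moves: vertex, colour, permutation of the colours, number of the new position. -/
def table8 : List (List ℕ × List (ℕ × ℕ × ℕ × ℕ)) := [
  ([0,0,0,0,0,0,0,1], [(5,0,0,11),(6,2,1,10),(6,0,0,5),(3,0,2,6),(4,0,0,3),(3,0,2,4),(1,1,2,6),(5,1,2,2),(2,0,0,3),(5,1,2,1),(0,0,0,11),(3,1,2,2),(1,0,0,5),(0,2,3,10)]),
  ([0,0,0,0,1,1,0,2], [(1,2,4,26),(1,1,2,21),(1,0,5,28),(0,2,5,28),(0,1,2,21),(0,0,4,26),(1,2,5,8)]),
  ([0,0,0,1,0,1,0,2], [(6,2,4,12),(1,2,1,31),(2,3,6,20),(0,1,1,31),(0,3,7,20),(0,0,4,12)]),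
  ([0,0,1,0,1,0,0,1], [(1,2,1,35),(0,2,3,35)]),
  ([0,0,1,2,0,0,0,2], [(6,1,0,13),(6,3,5,18),(4,3,5,9),(1,3,8,9),(0,0,0,13),(0,3,8,18)]),
  ([0,1,0,0,0,0,1,1], [(2,2,2,34),(0,2,5,34),(4,2,0,7),(3,2,4,7)]),
  ([0,1,0,2,0,0,0,2], [(6,1,0,22),(4,1,5,33),(4,3,4,9),(0,2,5,33),(2,3,9,9),(0,0,0,22),(0,2,5,30)]),
  ([0,1,0,2,3,0,1,1], [(2,4,10,44),(0,4,11,44)]),
  ([0,1,1,0,2,2,0,3], []),
  ([0,1,2,3,4,0,0,3], [(6,4,12,43),(0,4,12,43)]),
  ([1,0,0,0,0,0,2,3], [(3,1,0,23),(4,1,0,27),(4,0,4,25),(5,3,9,24),(3,1,0,14),(3,3,13,17),(3,2,4,16),(3,2,14,18),(5,0,0,12),(1,0,0,23),(2,2,4,16),(2,1,13,17),(1,2,4,25),(1,1,0,27),(2,3,9,15),(3,0,0,12),(1,3,9,24)]),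
  ([1,0,0,0,0,1,0,1], [(4,2,0,29),(3,2,0,19),(2,2,4,19),(1,2,4,29)]),
  ([1,0,0,1,0,1,2,3], []),
  ([1,0,1,2,0,0,2,2], []),
  ([1,0,1,2,0,0,2,3], []),
  ([1,0,2,0,2,0,3,4], [(5,4,15,36),(5,5,16,37),(1,3,15,36)]),
  ([1,0,2,2,0,0,3,2], []),
  ([1,0,2,3,0,0,2,4], [(5,5,17,42),(1,5,18,42)]),
  ([1,0,2,3,0,0,4,3], [(4,5,17,45),(1,5,18,45)]),
  ([1,0,2,3,0,1,0,1], [(4,4,9,46),(1,4,19,46)]),
  ([1,0,2,3,0,3,0,4], [(6,0,19,39),(1,4,19,39),(1,5,18,41)]),
  ([1,1,0,0,2,2,0,1], []),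
  ([1,1,0,2,0,0,2,2], []),
  ([1,1,0,2,0,0,2,3], []),
  ([1,2,0,0,0,2,3,4], [(4,5,20,38),(2,5,21,38)]),
  ([1,2,0,0,1,0,3,2], [(5,4,22,32),(3,4,23,32)]),
  ([1,2,0,0,1,1,0,3], []),
  ([1,2,0,0,2,0,2,3], []),
  ([1,2,0,0,2,2,0,3], []),
  ([1,2,0,0,3,1,0,1], [(3,4,22,46),(2,4,23,46)]),
  ([1,2,0,3,0,0,1,3], [(4,4,13,43),(2,4,24,43)]),
  ([1,2,0,3,0,3,0,1], [(6,4,13,40),(2,4,24,40)]),
  ([1,2,0,3,1,4,5,2], []),
  ([1,2,0,3,3,0,0,3], []),
  ([1,2,3,0,0,0,2,2], [(4,4,0,44),(3,4,25,44)]),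
  ([1,2,3,0,3,0,0,3], []),
  ([1,2,3,0,3,4,5,2], []),
  ([1,2,3,0,3,4,5,6], []),
  ([1,2,3,0,4,2,5,6], []),
  ([1,2,3,4,0,4,1,5], []),
  ([1,2,3,4,0,4,5,1], []),
  ([1,2,3,4,0,4,5,6], []),
  ([1,2,3,4,0,5,3,6], []),
  ([1,2,3,4,5,0,1,4], []),
  ([1,2,3,4,5,0,2,2], []),
  ([1,2,3,4,5,0,6,4], []),
  ([1,2,3,4,5,1,0,1], [])]

/-- Permutations of the colours that occur in the strategy on `T_10`. -/
def perms10 : List (List ℕ) := [
  [0,1,2,3,4,5,6,7],
  [0,1,3,2,4,5,6,7],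
  [0,1,4,2,3,5,6,7],
  [0,1,4,3,2,5,6,7],
  [0,1,4,5,2,3,6,7],
  [0,1,4,5,3,2,6,7],
  [0,1,3,4,2,5,6,7],
  [0,1,3,4,5,2,6,7],
  [0,1,4,5,6,2,3,7],
  [0,1,4,5,6,3,2,7],
  [0,1,3,4,5,6,2,7],
  [0,1,4,5,6,7,2,3],
  [0,1,4,5,6,7,3,2],
  [0,1,2,5,3,4,6,7],
  [0,1,2,5,4,3,6,7],
  [0,1,2,4,3,5,6,7],
  [0,1,2,4,5,3,6,7],
  [0,1,2,3,5,4,6,7],
  [0,1,3,5,2,4,6,7],
  [0,1,3,5,4,2,6,7],
  [0,1,3,4,5,7,2,6],
  [0,1,3,4,5,7,6,2],
  [0,1,2,4,5,7,3,6],
  [0,1,2,4,5,7,6,3],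
  [0,1,2,3,6,7,4,5],
  [0,1,2,3,6,7,5,4],
  [0,1,2,3,4,6,5,7],
  [0,1,2,3,4,6,7,5],
  [0,1,3,5,6,2,4,7],
  [0,1,3,5,6,4,2,7],
  [0,1,2,3,5,6,4,7],
  [0,1,3,5,6,7,2,4],
  [0,1,3,5,6,7,4,2],
  [0,1,2,4,5,6,7,3],
  [0,1,3,4,5,6,7,2],
  [0,1,3,4,6,5,2,7],
  [0,1,3,4,6,7,2,5],
  [0,1,3,4,6,7,5,2],
  [0,1,3,4,6,2,5,7],
  [0,1,2,3,4,5,7,6],
  [0,1,2,5,6,3,4,7],
  [0,1,2,5,6,7,3,4],
  [0,1,2,4,5,6,3,7],
  [0,1,2,5,6,7,4,3],
  [0,1,2,4,6,7,5,3],
  [0,1,2,4,6,7,3,5],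
  [0,1,2,3,6,4,5,7],
  [0,1,2,3,6,5,4,7],
  [0,1,2,3,5,6,7,4],
  [0,1,2,3,4,7,5,6],
  [0,1,2,3,4,7,6,5]]

/-- Positions of `T_10` in which the player to move loses, each with the list of the answers to
the possible moves: vertex, colour, permutation of the colours, number of the new position. -/
def table10 : List (List ℕ × List (ℕ × ℕ × ℕ × ℕ)) := [
  ([1,0,0,0,0,0,0,0,0,0], [(5,1,0,112),(9,0,0,163),(9,1,0,40),(3,2,0,68),(4,1,0,18),(2,2,1,68),(8,1,0,6),(3,0,0,18),(7,0,0,4),(1,0,0,112),(7,1,0,2),(7,0,0,3),(5,0,0,4),(6,0,0,2),(6,0,0,1),(4,0,0,6),(1,1,0,163),(2,0,0,40)]),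
  ([1,0,0,0,0,0,1,0,1,0], [(2,2,0,220),(1,2,1,220),(9,1,0,14),(4,1,0,38),(3,1,0,38),(4,2,1,11),(3,0,0,14)]),
  ([1,0,0,0,0,0,1,2,0,0], [(9,2,0,111),(3,3,2,195),(9,1,0,42),(3,3,2,74),(9,1,0,15),(8,2,0,32),(1,3,3,195),(9,1,0,8),(5,3,2,12),(4,3,3,12),(3,1,0,32),(2,0,0,42),(1,0,0,111)]),
  ([1,0,0,0,0,0,2,1,0,0], [(5,2,1,116),(4,1,1,185),(9,2,0,43),(3,3,2,78),(8,2,0,16),(9,0,0,33),(2,3,3,78),(1,2,1,185),(2,3,3,64),(1,0,1,116),(3,0,0,16),(1,2,1,165),(2,0,0,43)]),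
  ([1,0,0,0,0,1,0,1,0,0], [(4,2,0,186),(3,2,0,83),(2,2,1,83),(1,2,1,186),(9,2,0,5),(8,2,1,5)]),
  ([1,0,0,0,0,1,0,1,2,3], [(4,4,4,187),(3,4,4,84),(2,4,5,84),(1,4,5,187)]),
  ([1,0,0,0,1,0,0,0,2,0], [(6,1,0,118),(7,1,0,172),(5,1,1,176),(7,1,0,17),(9,2,0,34),(9,0,1,35),(7,2,1,9),(1,2,1,176),(6,3,2,10),(9,1,0,7),(1,0,0,118),(5,3,3,10),(1,2,1,171),(1,1,0,172),(5,0,1,9),(3,2,1,35),(6,0,0,7),(3,1,0,34)]),
  ([1,0,0,0,1,0,1,0,2,2], [(3,3,2,202),(1,3,3,202)]),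
  ([1,0,0,0,1,0,1,2,0,2], [(3,3,2,203),(1,3,3,203)]),
  ([1,0,0,0,1,1,0,2,3,0], [(9,3,1,174),(9,3,6,175),(1,2,1,174)]),
  ([1,0,0,0,1,2,3,0,4,0], [(9,1,0,124),(9,4,6,177),(7,4,7,178),(9,4,6,36),(9,0,7,37),(1,4,7,178),(3,4,7,37),(1,0,0,124),(1,0,0,125),(1,3,6,177)]),
  ([1,0,0,0,2,3,1,0,1,0], [(2,4,4,225),(1,4,5,225),(9,3,6,39),(3,3,6,39)]),
  ([1,0,0,0,2,3,1,4,0,0], [(9,1,0,131),(3,5,8,217),(9,3,7,65),(1,5,9,217),(9,1,0,13),(1,0,0,131),(2,4,7,65),(2,5,10,66)]),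
  ([1,0,0,0,2,3,1,4,5,2], [(3,5,10,155),(2,6,11,226),(1,6,12,226),(1,0,10,155)]),
  ([1,0,0,1,0,0,1,0,1,2], []),
  ([1,0,0,1,0,0,1,2,0,2], []),
  ([1,0,0,1,0,0,2,1,3,0], [(9,4,6,26),(4,4,7,26)]),
  ([1,0,0,1,1,0,0,2,2,0], []),
  ([1,0,0,1,2,0,0,0,0,0], [(7,2,0,27),(9,0,0,23),(8,2,0,25),(8,0,0,20),(8,1,0,22),(5,2,0,27),(7,0,0,20),(7,1,0,22),(6,2,0,25),(6,1,0,23),(7,1,0,21),(8,1,0,19)]),
  ([1,0,0,1,2,0,0,0,2,3], [(7,4,13,29),(5,4,14,29)]),
  ([1,0,0,1,2,0,0,1,1,0], []),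
  ([1,0,0,1,2,0,0,2,0,2], []),
  ([1,0,0,1,2,0,0,2,2,0], []),
  ([1,0,0,1,2,0,2,0,0,1], [(8,3,0,24),(7,3,15,24)]),
  ([1,0,0,1,2,0,2,3,4,1], []),
  ([1,0,0,1,2,0,3,0,3,0], [(9,0,15,30),(5,3,15,30),(5,4,16,31)]),
  ([1,0,0,1,2,0,3,1,4,5], []),
  ([1,0,0,1,2,3,0,3,0,0], [(9,4,0,28),(8,4,17,28)]),
  ([1,0,0,1,2,3,0,3,4,5], []),
  ([1,0,0,1,2,3,0,4,2,5], []),
  ([1,0,0,1,2,3,4,0,4,1], []),
  ([1,0,0,1,2,3,4,0,4,5], []),
  ([1,0,0,2,0,0,1,2,3,0], [(9,4,6,194),(4,4,18,95),(2,4,19,95),(1,4,7,194)]),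
  ([1,0,0,2,0,0,2,1,0,1], [(2,3,2,237),(1,3,3,237)]),
  ([1,0,0,2,1,0,0,0,2,3], [(7,4,18,200),(6,4,13,36),(5,4,14,36),(1,4,19,200)]),
  ([1,0,0,2,1,0,0,0,3,1], [(7,4,18,201),(6,4,13,37),(5,4,14,37),(1,4,19,201)]),
  ([1,0,0,2,1,3,4,0,2,5], [(7,6,20,210),(1,6,21,210)]),
  ([1,0,0,2,1,3,4,0,5,1], [(7,6,20,211),(1,6,21,211)]),
  ([1,0,0,2,2,0,1,0,1,0], [(9,3,1,213),(1,3,6,213)]),
  ([1,0,0,2,3,4,1,0,1,2], [(2,5,8,288),(1,5,9,288)]),
  ([1,0,1,0,0,0,0,0,0,2], [(5,1,0,53),(7,0,1,52),(5,2,0,49),(7,2,1,48),(6,1,0,45),(3,1,0,53),(4,1,0,49),(7,1,0,42),(5,0,0,45),(7,0,1,43),(3,2,1,52),(6,0,0,42),(4,2,1,48),(5,0,0,44),(5,1,0,46),(7,0,1,41)]),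
  ([1,0,1,0,0,0,0,1,2,3], [(4,4,4,57),(3,4,5,57),(6,4,4,47),(5,4,5,47)]),
  ([1,0,1,0,0,0,1,2,0,2], [(5,3,2,55),(3,3,3,55)]),
  ([1,0,1,0,0,0,2,1,0,3], [(5,4,4,56),(5,4,4,51),(3,4,5,56),(5,4,19,47)]),
  ([1,0,1,0,0,1,0,0,1,2], []),
  ([1,0,1,0,0,1,2,0,0,2], []),
  ([1,0,1,0,0,2,0,0,2,2], [(4,3,2,60),(3,3,3,60)]),
  ([1,0,1,0,0,2,3,1,4,5], [(4,6,11,62),(3,6,12,62)]),
  ([1,0,1,0,2,0,0,2,0,3], [(8,4,18,58),(3,4,19,58)]),
  ([1,0,1,0,2,3,0,0,0,2], [(7,4,6,61),(8,4,0,50),(3,4,7,61),(3,3,6,59),(6,4,17,50)]),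
  ([1,0,1,0,2,3,4,0,5,2], [(7,6,20,63),(3,6,21,63)]),
  ([1,0,1,0,2,3,4,1,0,5], [(8,6,20,62),(3,6,21,62)]),
  ([1,0,1,2,0,0,0,1,0,3], [(8,4,13,57),(6,4,13,56),(5,4,14,56),(4,4,14,57)]),
  ([1,0,1,2,0,2,0,0,0,2], [(8,3,0,54),(6,3,15,54)]),
  ([1,0,1,2,0,2,3,0,4,2], []),
  ([1,0,1,2,0,3,1,4,0,4], []),
  ([1,0,1,2,0,3,4,1,0,5], [(8,6,22,62),(4,6,23,62)]),
  ([1,0,1,2,3,0,0,1,4,5], [(6,6,24,62),(5,6,25,62)]),
  ([1,0,1,2,3,0,0,3,4,5], []),
  ([1,0,1,2,3,4,0,0,3,3], []),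
  ([1,0,1,2,3,4,0,0,4,4], []),
  ([1,0,1,2,3,4,0,5,0,3], [(8,6,26,63),(6,6,27,63)]),
  ([1,0,1,2,3,4,5,1,6,7], []),
  ([1,0,1,2,3,4,5,6,7,3], []),
  ([1,0,2,0,3,0,4,1,0,0], [(3,5,28,271),(1,5,29,271),(8,5,17,67),(5,5,30,67),(3,4,16,101),(1,4,7,223),(3,4,16,102)]),
  ([1,0,2,0,3,4,1,5,0,5], [(3,6,31,293),(1,6,32,293)]),
  ([1,0,2,0,3,4,1,5,0,6], [(3,6,31,291),(3,5,32,292),(1,6,32,292),(1,5,31,291),(3,6,33,108)]),
  ([1,0,2,0,3,4,5,1,6,0], [(3,5,32,301),(1,6,32,301),(9,6,33,110),(1,6,34,228),(3,6,33,110)]),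
  ([1,0,2,3,0,0,0,0,0,0], [(9,0,6,229),(9,1,0,94),(7,0,0,83),(8,2,0,86),(8,2,0,89),(7,3,0,74),(9,2,0,76),(7,2,0,77),(7,0,0,78),(5,0,0,83),(9,1,0,70),(6,2,0,77),(6,0,0,74),(7,2,0,71),(5,0,0,82),(5,2,0,86),(7,2,0,72),(1,3,6,229),(4,3,0,94),(6,1,0,76),(8,2,0,69)]),
  ([1,0,2,3,0,0,0,0,3,4], [(5,2,7,245),(5,0,17,104),(4,4,17,104),(1,4,7,245),(1,5,35,251),(7,4,17,75),(1,4,7,236),(7,0,17,79),(6,4,17,79),(6,0,17,75)]),
  ([1,0,2,3,0,0,0,2,0,2], [(4,4,6,261),(1,4,7,261),(6,4,0,93),(5,4,17,93)]),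
  ([1,0,2,3,0,0,0,3,1,0], [(4,4,6,262),(1,4,7,262),(9,4,0,80),(6,4,17,80)]),
  ([1,0,2,3,0,0,0,3,4,0], [(9,0,7,230),(6,0,17,95),(4,4,17,95),(9,0,17,81),(1,4,7,230),(6,0,0,73)]),
  ([1,0,2,3,0,0,1,3,4,5], [(4,6,36,263),(1,6,37,263)]),
  ([1,0,2,3,0,0,1,4,0,0], [(8,5,7,233),(9,1,17,96),(9,1,0,87),(8,2,17,90),(5,4,17,90),(1,5,10,233),(4,4,17,96),(1,4,7,232),(4,4,17,97),(8,2,0,75)]),
  ([1,0,2,3,0,0,1,4,3,5], [(5,6,36,252),(5,6,24,108),(1,6,37,252)]),
  ([1,0,2,3,0,0,2,0,0,3], [(8,4,6,234),(7,4,0,91),(5,4,17,91),(1,4,7,234)]),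
  ([1,0,2,3,0,0,3,3,0,0], [(9,0,6,238),(1,3,6,238),(1,4,7,239)]),
  ([1,0,2,3,0,0,4,1,0,0], [(4,5,38,271),(8,4,0,99),(1,5,35,271),(9,4,0,88),(8,2,17,92),(5,4,17,92),(4,3,0,99),(4,4,17,101),(4,4,17,102),(5,2,0,88)]),
  ([1,0,2,3,0,0,4,1,3,5], [(4,6,36,272),(1,6,37,272),(1,6,37,259)]),
  ([1,0,2,3,0,0,4,3,1,5], [(4,6,36,275),(1,6,37,275)]),
  ([1,0,2,3,0,0,4,3,5,1], [(4,6,36,276),(1,6,37,276)]),
  ([1,0,2,3,0,1,0,0,2,0], [(7,4,6,241),(9,1,0,103),(9,4,0,85),(1,4,7,241),(4,3,0,103),(6,4,17,85)]),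
  ([1,0,2,3,0,1,0,1,0,0], [(4,4,6,278),(1,4,7,278),(9,4,0,84),(8,4,17,84)]),
  ([1,0,2,3,0,1,0,1,4,5], [(4,6,36,279),(1,6,37,279)]),
  ([1,0,2,3,0,1,4,0,2,5], [(4,6,36,282),(1,6,37,282),(1,6,21,243)]),
  ([1,0,2,3,0,3,0,0,3,0], [(9,0,6,244),(1,3,6,244),(1,4,7,245)]),
  ([1,0,2,3,0,3,1,4,0,2], [(8,5,7,247),(1,5,10,247)]),
  ([1,0,2,3,0,3,4,1,0,5], [(8,6,20,249),(1,6,21,249)]),
  ([1,0,2,3,0,4,0,0,3,0], [(9,5,7,251),(9,0,17,105),(7,4,0,90),(7,0,0,92),(6,4,0,92),(6,0,0,90),(4,4,17,105),(4,4,17,106),(1,5,10,251)]),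
  ([1,0,2,3,0,4,1,5,3,0], [(9,6,10,252),(9,6,30,108),(1,6,34,252)]),
  ([1,0,2,3,0,4,2,5,0,3], [(8,6,10,258),(1,6,34,258)]),
  ([1,0,2,3,0,4,5,1,3,0], [(4,6,36,301),(1,6,37,301),(1,6,34,259)]),
  ([1,0,2,3,0,4,5,2,0,2], [(4,6,36,302),(1,6,37,302)]),
  ([1,0,2,3,4,0,0,0,0,2], [(7,1,7,261),(8,1,0,103),(8,5,0,107),(7,4,0,96),(8,4,0,98),(8,1,0,100),(1,4,7,261),(6,0,0,96),(5,0,0,103),(5,5,26,107)]),
  ([1,0,2,3,4,0,1,3,5,0], [(9,6,10,263),(1,6,34,263)]),
  ([1,0,2,3,4,0,1,5,0,2], [(8,6,10,264),(8,6,26,109),(1,6,34,264)]),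
  ([1,0,2,3,4,0,1,5,0,5], [(5,6,20,293),(1,6,21,293)]),
  ([1,0,2,3,4,0,4,0,5,2], [(7,6,20,270),(1,6,21,270)]),
  ([1,0,2,3,4,0,4,1,5,0], [(9,2,10,267),(1,5,10,267),(1,6,34,268)]),
  ([1,0,2,3,4,0,5,0,2,2], [(5,0,10,281),(1,5,10,281),(1,6,21,296)]),
  ([1,0,2,3,4,0,5,1,0,1], [(5,6,20,300),(1,6,21,300)]),
  ([1,0,2,3,4,0,5,1,0,3], [(8,6,10,273),(8,6,26,110),(1,6,34,273)]),
  ([1,0,2,3,4,1,0,0,2,2], [(6,5,7,281),(1,5,10,281)]),
  ([1,0,2,3,4,1,0,0,3,5], [(6,6,20,283),(1,6,21,283),(1,6,21,280)]),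
  ([1,0,2,3,4,5,0,0,3,1], [(6,6,10,297),(1,6,34,297),(1,6,34,287)]),
  ([1,0,2,3,4,5,0,0,3,3], [(6,0,10,289),(1,5,10,289),(1,6,34,298)]),
  ([1,0,2,3,4,5,0,0,6,2], [(6,5,34,299),(7,6,39,109),(1,6,34,299),(1,6,34,294),(1,6,34,286),(6,0,39,109)]),
  ([1,0,2,3,4,5,1,6,3,7], []),
  ([1,0,2,3,4,5,1,6,7,2], []),
  ([1,0,2,3,4,5,6,1,7,3], []),
  ([1,1,0,0,0,0,1,2,0,3], [(4,3,2,147),(8,4,18,136),(5,3,2,131),(3,2,2,147),(4,2,2,131),(3,4,19,136)]),
  ([1,1,0,0,0,2,0,0,0,0], [(9,1,0,137),(8,1,1,140),(7,1,0,120),(7,0,0,128),(9,2,1,130),(9,0,0,113),(9,0,0,114),(7,0,0,116),(4,1,0,128),(4,0,0,120),(6,3,15,117),(4,0,0,119),(3,2,1,140),(6,3,15,115),(6,0,0,113),(3,1,0,137),(4,2,1,130)]),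
  ([1,1,0,0,0,2,1,0,0,1], [(4,3,2,153),(3,3,3,153)]),
  ([1,1,0,0,0,2,2,0,0,1], [(8,3,1,141),(3,3,6,141)]),
  ([1,1,0,0,0,2,3,0,4,0], [(9,1,0,138),(9,4,6,142),(7,0,7,143),(9,1,0,124),(9,0,7,132),(3,4,7,143),(3,5,35,146),(4,4,7,132),(3,1,0,138),(4,0,0,125),(3,3,6,142)]),
  ([1,1,0,0,0,2,3,1,0,0], [(8,4,6,143),(9,3,6,134),(3,4,7,143),(4,3,6,134)]),
  ([1,1,0,0,0,2,3,4,0,0], [(9,3,0,139),(8,0,7,145),(9,3,0,126),(9,4,7,135),(3,4,7,145),(3,5,10,146),(3,4,7,144),(3,1,0,139),(4,4,7,135)]),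
  ([1,1,0,0,1,0,2,0,2,0], [(9,3,1,123),(5,3,6,123)]),
  ([1,1,0,0,1,2,0,0,1,0], [(9,3,0,122),(7,3,15,122)]),
  ([1,1,0,0,1,2,0,2,0,0], [(9,3,0,121),(8,3,15,121)]),
  ([1,1,0,0,1,2,0,2,3,4], []),
  ([1,1,0,0,1,2,0,3,1,4], []),
  ([1,1,0,0,1,2,3,0,3,4], []),
  ([1,1,0,0,1,2,3,0,4,2], []),
  ([1,1,0,0,1,2,3,0,4,4], []),
  ([1,1,0,0,1,2,3,4,0,4], []),
  ([1,1,0,0,2,0,1,3,4,5], [(5,5,28,154),(5,6,31,156),(3,4,28,154)]),
  ([1,1,0,0,2,2,0,1,0,0], [(9,3,0,129),(8,3,15,129)]),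
  ([1,1,0,0,2,2,0,1,3,4], []),
  ([1,1,0,0,2,3,0,0,0,2], [(8,0,6,148),(7,3,0,131),(7,0,0,134),(6,3,0,134),(6,0,0,131),(3,3,6,148),(3,3,6,149),(6,4,17,133)]),
  ([1,1,0,0,2,3,1,4,0,2], [(8,5,7,155),(3,5,10,155)]),
  ([1,1,0,0,2,3,4,0,5,1], [(7,6,20,160),(3,6,21,160)]),
  ([1,1,0,0,2,3,4,0,5,2], [(7,0,10,157),(3,5,10,157),(3,6,21,162)]),
  ([1,1,0,0,2,3,4,1,0,2], [(8,5,7,157),(3,5,10,157)]),
  ([1,1,0,0,2,3,4,5,0,2], [(8,0,10,158),(3,5,10,158),(3,6,34,162)]),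
  ([1,1,0,2,0,0,1,3,4,5], [(5,5,40,155),(5,6,41,156),(4,4,40,155)]),
  ([1,1,0,2,0,2,0,0,0,2], [(8,3,0,138),(6,3,15,138)]),
  ([1,1,0,2,0,2,3,0,4,2], []),
  ([1,1,0,2,0,2,3,4,0,4], []),
  ([1,1,0,2,0,3,0,0,3,0], [(9,0,15,150),(4,3,15,150),(4,3,15,151),(4,4,16,152)]),
  ([1,1,0,2,0,3,3,0,4,1], []),
  ([1,1,0,2,0,3,4,0,2,5], [(7,6,22,159),(4,6,23,159)]),
  ([1,1,0,2,0,3,4,1,5,0], [(9,5,42,157),(4,5,42,157)]),
  ([1,1,0,2,0,3,4,5,0,1], [(8,6,42,160),(4,6,33,160)]),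
  ([1,1,0,2,0,3,4,5,1,0], [(9,5,42,158),(4,5,42,158)]),
  ([1,1,0,2,0,3,4,5,6,0], [(9,0,33,160),(4,6,33,160),(4,6,33,161),(4,6,33,162)]),
  ([1,1,0,2,3,0,1,4,0,2], [(8,5,17,154),(5,5,30,154)]),
  ([1,1,0,2,3,4,0,0,1,3], [(7,5,0,158),(6,5,26,158)]),
  ([1,1,0,2,3,4,0,0,3,3], []),
  ([1,1,0,2,3,4,0,0,4,1], []),
  ([1,1,0,2,3,4,0,0,4,4], []),
  ([1,1,0,2,3,4,0,0,4,5], []),
  ([1,1,0,2,3,4,1,0,0,1], []),
  ([1,1,0,2,3,4,1,5,6,2], []),
  ([1,1,0,2,3,4,1,5,6,3], []),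
  ([1,1,0,2,3,4,1,5,6,7], []),
  ([1,1,0,2,3,4,5,1,6,3], []),
  ([1,1,0,2,3,4,5,6,1,3], []),
  ([1,1,0,2,3,4,5,6,2,7], []),
  ([1,1,0,2,3,4,5,6,7,1], []),
  ([1,1,0,2,3,4,5,6,7,2], []),
  ([1,1,0,2,3,4,5,6,7,3], []),
  ([1,2,0,0,0,0,0,0,0,1], [(3,3,0,229),(8,0,0,189),(2,3,15,229),(7,2,0,173),(6,1,0,180),(6,1,0,183),(6,0,0,166),(6,1,0,167),(6,1,0,169),(5,0,0,166),(4,1,0,180),(7,0,0,165),(6,2,0,165),(4,0,0,173),(3,1,0,189),(7,3,15,164)]),
  ([1,2,0,0,0,0,0,3,4,1], [(3,2,16,230),(4,2,0,191),(2,4,16,230),(4,3,15,212),(4,0,16,201),(3,4,16,201),(6,1,0,181),(3,1,0,191),(3,3,15,212),(6,1,16,184),(6,4,16,168),(3,4,16,198),(6,1,16,170),(4,1,0,181),(5,1,16,168)]),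
  ([1,2,0,0,0,0,3,1,0,1], [(3,2,15,237),(4,2,0,193),(2,3,15,237),(4,4,13,216),(5,3,15,182),(3,1,0,193),(3,4,14,216),(4,1,15,182)]),
  ([1,2,0,0,0,1,1,0,0,1], [(3,3,0,242),(2,3,15,242)]),
  ([1,2,0,0,0,2,2,0,0,1], [(8,3,0,221),(2,3,15,221)]),
  ([1,2,0,0,0,2,3,4,5,1], [(4,6,41,224),(2,6,43,224)]),
  ([1,2,0,0,0,3,2,0,0,1], [(3,4,13,254),(2,4,14,254),(7,4,15,188),(4,4,16,188),(7,4,17,170)]),
  ([1,2,0,0,0,3,2,4,5,1], [(3,6,41,255),(2,6,43,255),(2,6,43,227)]),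
  ([1,2,0,0,1,0,0,1,3,0], [(9,4,15,199),(3,4,16,199)]),
  ([1,2,0,0,1,0,0,2,2,0], [(5,3,0,207),(3,3,15,207)]),
  ([1,2,0,0,1,0,0,3,0,1], [(8,4,15,201),(6,4,13,179),(5,4,14,179),(3,4,16,201)]),
  ([1,2,0,0,1,1,0,3,2,4], []),
  ([1,2,0,0,1,1,0,3,4,2], []),
  ([1,2,0,0,1,3,0,0,3,0], [(9,1,15,204),(3,3,15,204),(3,3,15,205),(3,4,16,206)]),
  ([1,2,0,0,1,3,4,0,2,5], [(7,6,22,209),(3,6,23,209)]),
  ([1,2,0,0,1,3,4,2,5,0], [(9,6,42,208),(3,6,33,208)]),
  ([1,2,0,0,1,3,4,5,0,1], [(8,6,42,211),(3,6,33,211)]),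
  ([1,2,0,0,2,0,2,0,0,1], [(8,3,0,181),(7,3,15,181)]),
  ([1,2,0,0,2,0,2,3,4,1], []),
  ([1,2,0,0,2,3,4,1,0,1], []),
  ([1,2,0,0,3,0,2,0,0,1], [(3,4,13,265),(2,4,14,265),(7,4,0,188),(5,4,17,188),(7,4,17,184)]),
  ([1,2,0,0,3,0,2,4,5,1], [(3,6,41,266),(2,6,43,266),(2,6,44,227)]),
  ([1,2,0,0,3,0,3,1,0,0], [(8,4,15,222),(9,0,0,193),(9,4,15,215),(2,4,16,222),(3,1,0,193),(3,4,16,215)]),
  ([1,2,0,0,3,1,0,1,0,0], [(3,4,13,278),(2,4,14,278),(9,4,0,187),(8,4,17,187)]),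
  ([1,2,0,0,3,1,0,1,4,5], [(3,6,41,279),(2,6,43,279)]),
  ([1,2,0,0,3,4,2,5,0,1], [(3,6,41,295),(2,6,43,295),(2,6,33,227)]),
  ([1,2,0,2,0,0,0,0,1,1], [(6,2,0,192),(6,2,0,190),(4,2,0,192)]),
  ([1,2,0,2,0,3,3,0,1,1], []),
  ([1,2,0,2,3,0,0,3,4,1], []),
  ([1,2,0,2,3,0,3,0,1,1], []),
  ([1,2,0,2,3,0,3,1,0,1], []),
  ([1,2,0,3,0,0,1,3,4,5], [(4,6,45,263),(2,6,44,263)]),
  ([1,2,0,3,0,0,1,4,0,0], [(8,5,16,233),(9,3,0,203),(9,3,0,214),(5,5,46,217),(9,1,0,197),(4,5,47,217),(9,4,0,196),(2,5,42,233),(5,2,0,197),(2,4,16,232),(4,0,0,203),(8,2,0,196)]),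
  ([1,2,0,3,0,0,1,4,3,5], [(5,6,45,252),(5,6,24,218),(2,6,44,252)]),
  ([1,2,0,3,0,3,1,4,0,2], [(8,5,16,246),(2,5,42,246)]),
  ([1,2,0,3,0,4,0,4,5,1], [(4,6,45,285),(2,6,44,285)]),
  ([1,2,0,3,1,0,0,1,4,5], []),
  ([1,2,0,3,1,0,0,4,3,5], [(6,6,24,210),(5,6,25,210)]),
  ([1,2,0,3,1,0,0,4,5,1], [(6,6,24,211),(5,6,25,211)]),
  ([1,2,0,3,1,0,1,0,4,4], []),
  ([1,2,0,3,1,0,1,4,0,4], []),
  ([1,2,0,3,1,4,0,0,4,2], []),
  ([1,2,0,3,1,4,0,0,4,4], []),
  ([1,2,0,3,1,4,0,0,4,5], []),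
  ([1,2,0,3,1,4,0,2,2,0], []),
  ([1,2,0,3,1,4,5,2,6,7], []),
  ([1,2,0,3,1,4,5,6,2,7], []),
  ([1,2,0,3,1,4,5,6,3,7], []),
  ([1,2,0,3,1,4,5,6,7,1], []),
  ([1,2,0,3,3,0,0,4,3,1], []),
  ([1,2,0,3,3,0,1,0,1,4], []),
  ([1,2,0,3,3,0,1,4,0,4], []),
  ([1,2,0,3,4,0,4,1,0,5], [(8,6,22,268),(2,6,23,268)]),
  ([1,2,0,3,4,0,5,1,0,1], [(5,6,22,300),(2,6,23,300)]),
  ([1,2,0,3,4,5,1,6,0,0], [(9,1,33,291),(9,6,0,218),(9,3,0,219),(2,6,33,291),(2,6,33,292),(8,6,0,219),(2,6,33,293),(8,2,0,218)]),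
  ([1,2,0,3,4,5,1,6,3,7], []),
  ([1,2,0,3,4,5,1,6,7,4], []),
  ([1,2,3,0,0,0,1,0,1,0], [(9,3,0,231),(5,4,0,225),(4,4,17,225),(3,3,0,231)]),
  ([1,2,3,0,0,2,2,0,4,1], []),
  ([1,2,3,0,4,0,4,1,5,0], [(9,5,30,267),(3,5,30,267)]),
  ([1,2,3,0,4,0,5,1,0,4], [(8,6,30,274),(8,6,26,228),(3,6,48,274)]),
  ([1,2,3,0,4,2,5,6,7,1], []),
  ([1,2,3,0,4,5,1,0,1,0], [(9,5,30,288),(3,5,30,288)]),
  ([1,2,3,0,4,5,1,6,7,4], []),
  ([1,2,3,0,4,5,2,6,7,1], []),
  ([1,2,3,0,4,5,6,1,7,4], []),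
  ([1,2,3,4,0,0,0,0,0,1], [(6,1,0,265),(6,0,0,242),(8,3,0,244),(6,1,0,254),(5,0,0,242),(4,4,0,265),(5,4,0,256),(7,0,0,237),(7,5,0,240),(6,3,0,237),(6,3,0,238),(6,5,26,240),(6,3,0,235),(5,3,0,244),(7,3,0,230)]),
  ([1,2,3,4,0,0,0,4,5,1], [(6,6,49,276),(4,6,50,276)]),
  ([1,2,3,4,0,0,1,0,1,4], [(5,5,0,288),(4,5,26,288)]),
  ([1,2,3,4,0,0,1,5,0,4], [(5,6,49,292),(4,6,50,292),(5,6,27,253)]),
  ([1,2,3,4,0,0,1,5,6,0], [(9,2,27,264),(9,1,0,246),(9,3,27,253),(5,3,0,246),(4,6,27,264),(5,6,27,253),(5,3,0,248)]),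
  ([1,2,3,4,0,0,3,0,5,4], [(7,6,49,258),(5,6,50,258)]),
  ([1,2,3,4,0,0,4,0,1,1], []),
  ([1,2,3,4,0,0,4,0,4,5], []),
  ([1,2,3,4,0,0,4,1,0,1], []),
  ([1,2,3,4,0,0,4,4,0,1], []),
  ([1,2,3,4,0,0,4,4,0,5], []),
  ([1,2,3,4,0,0,5,6,0,1], [(8,6,0,269),(8,3,27,277),(8,6,0,250),(8,3,27,260),(4,6,27,277),(4,4,0,269)]),
  ([1,2,3,4,0,1,0,5,3,0], [(6,6,49,284),(4,6,50,284),(6,6,27,243)]),
  ([1,2,3,4,0,1,1,0,0,1], []),
  ([1,2,3,4,0,1,5,6,3,7], []),
  ([1,2,3,4,0,4,0,0,4,1], []),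
  ([1,2,3,4,0,4,0,0,4,5], []),
  ([1,2,3,4,0,4,1,5,6,2], []),
  ([1,2,3,4,0,4,1,5,6,3], []),
  ([1,2,3,4,0,4,1,5,6,7], []),
  ([1,2,3,4,0,4,5,1,6,7], []),
  ([1,2,3,4,0,4,5,6,7,1], []),
  ([1,2,3,4,0,5,0,0,4,6], [(6,0,27,290),(4,6,27,290),(7,0,39,259),(6,6,39,259),(6,0,39,252)]),
  ([1,2,3,4,0,5,1,6,4,7], []),
  ([1,2,3,4,0,5,1,6,7,4], []),
  ([1,2,3,4,0,5,2,0,0,1], [(7,6,26,295),(4,6,27,295),(7,6,39,255)]),
  ([1,2,3,4,0,5,2,6,7,1], []),
  ([1,2,3,4,0,5,3,0,0,1], [(8,6,0,257),(7,6,39,257)]),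
  ([1,2,3,4,0,5,3,6,7,1], []),
  ([1,2,3,4,0,5,3,6,7,4], []),
  ([1,2,3,4,0,5,6,1,4,7], []),
  ([1,2,3,4,0,5,6,7,4,1], []),
  ([1,2,3,4,5,0,0,3,0,3], [(6,6,0,302),(5,6,39,302)]),
  ([1,2,3,4,5,0,0,4,1,0], [(9,6,0,275),(6,6,39,275)]),
  ([1,2,3,4,5,0,1,4,6,7], []),
  ([1,2,3,4,5,0,1,6,7,3], []),
  ([1,2,3,4,5,0,2,0,0,1], [(7,6,0,295),(5,6,39,295),(7,6,39,266)]),
  ([1,2,3,4,5,0,2,6,7,1], []),
  ([1,2,3,4,5,0,5,1,6,4], []),
  ([1,2,3,4,5,0,5,1,6,7], []),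
  ([1,2,3,4,5,0,5,6,7,1], []),
  ([1,2,3,4,5,0,5,6,7,3], []),
  ([1,2,3,4,5,0,6,1,0,0], [(8,3,39,301),(5,6,39,301),(9,3,0,273),(5,6,39,300),(8,6,0,273),(8,6,0,274),(8,3,0,272)]),
  ([1,2,3,4,5,0,6,1,4,7], []),
  ([1,2,3,4,5,0,6,1,7,4], []),
  ([1,2,3,4,5,0,6,1,7,5], []),
  ([1,2,3,4,5,0,6,4,1,7], []),
  ([1,2,3,4,5,0,6,4,7,1], []),
  ([1,2,3,4,5,0,6,7,4,1], []),
  ([1,2,3,4,5,1,0,1,0,0], [(9,6,0,279),(8,6,39,279)]),
  ([1,2,3,4,5,1,0,1,6,7], []),
  ([1,2,3,4,5,1,0,6,4,7], []),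
  ([1,2,3,4,5,1,6,0,3,3], []),
  ([1,2,3,4,5,1,6,0,3,7], []),
  ([1,2,3,4,5,1,6,0,4,7], []),
  ([1,2,3,4,5,1,6,7,3,0], []),
  ([1,2,3,4,5,6,0,6,7,1], []),
  ([1,2,3,4,5,6,0,6,7,3], []),
  ([1,2,3,4,5,6,0,7,4,1], []),
  ([1,2,3,4,5,6,1,0,1,4], []),
  ([1,2,3,4,5,6,1,0,4,4], []),
  ([1,2,3,4,5,6,1,0,4,7], []),
  ([1,2,3,4,5,6,1,7,0,2], []),
  ([1,2,3,4,5,6,1,7,0,4], []),
  ([1,2,3,4,5,6,1,7,0,7], []),
  ([1,2,3,4,5,6,2,0,7,3], []),
  ([1,2,3,4,5,6,2,7,0,1], []),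
  ([1,2,3,4,5,6,7,0,3,3], []),
  ([1,2,3,4,5,6,7,0,4,1], []),
  ([1,2,3,4,5,6,7,0,4,4], []),
  ([1,2,3,4,5,6,7,0,7,3], []),
  ([1,2,3,4,5,6,7,1,0,1], []),
  ([1,2,3,4,5,6,7,1,4,0], []),
  ([1,2,3,4,5,6,7,3,0,3], [])]

/-- The table for `T_8` passes the test. -/
lemma check8 : table8.all (checkEntry 8 7 table8 perms8) = true := by decide +kernel

/-- The table for `T_10` passes the test. -/
lemma check10 : table10.all (checkEntry 10 7 table10 perms10) = true := by decide +kernel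

lemma number8 : edgeDistinguishingNumber (triangularLadder 8) = 7 :=
  number_eq le_rfl ![0, 1, 2, 3, 4, 0, 5, 6]
    (upper [1, 2, 3, 4, 5, 1, 6, 7] rfl _ (by decide) (by decide +kernel))

lemma number10 : edgeDistinguishingNumber (triangularLadder 10) = 7 :=
  number_eq (by norm_num) ![0, 1, 2, 3, 4, 0, 5, 6, 1, 4]
    (upper [1, 2, 3, 4, 5, 1, 6, 7, 2, 5] rfl _ (by decide) (by decide +kernel))

/-- `λ(T_8) = λ(T_10) = 7`, and Player 1 has a winning strategy in the edge-distinguishing game on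
`T_8` and on `T_10`. -/
theorem result :
    (edgeDistinguishingNumber (triangularLadder 8) = 7 ∧
      FirstPlayerWins (triangularLadder 8)) ∧
    (edgeDistinguishingNumber (triangularLadder 10) = 7 ∧
      FirstPlayerWins (triangularLadder 10)) := by
  refine ⟨⟨number8, ?_⟩, number10, ?_⟩
  · unfold FirstPlayerWins
    rw [number8]
    exact wins_of_table (by norm_num) table8 perms8 (by decide +kernel) check8 ⟨7, by norm_num⟩
      ⟨0, by norm_num⟩ _ (List.mem_cons_self ..) rfl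
  · unfold FirstPlayerWins
    rw [number10]
    exact wins_of_table (by norm_num) table10 perms10 (by decide +kernel) check10
      ⟨0, by norm_num⟩ ⟨0, by norm_num⟩ _ (List.mem_cons_self ..) rfl

end Pool.Agent.Results.MP_08a4a0_co.PlayerOneWins
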